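import Pool.Agent.U174.AO.Stm

set_option autoImplicit false

/-!
Project AO, package SATF: ultrapowers are countably saturated.
-/

namespace Pool.Agent.U941.AO

open IsLocalRing Filter Pool.Agent.U174.AK Pool.Agent.U174.AO

theorem t_SATF : S_LOSF → S_SATF := by
  classical
  intro h ι K K' _ _ O O' π hU Q Q' hQ Φ b hfin
  choose s hs using hU.surj
  have los : ∀ (i : ℕ) (z : ℕ → K), (Φ i).2.Holds Q' (Fin.cons (π z) (b i)) ↔
      ∀ᶠ j in (hyperfilter ℕ : Filter ℕ),
        (Φ i).2.Holds Q (Fin.cons (z j) (fun k => s (b i k) j)) := by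
    intro i z
    have h1 := h ι K K' O O' π hU Q Q' hQ ((Φ i).1 + 1) (Φ i).2
      (Fin.cons (α := fun _ => ℕ → K) z (fun k => s (b i k)))
    have e1 : (fun idx => π ((Fin.cons (α := fun _ => ℕ → K) z (fun k => s (b i k)) :
        Fin ((Φ i).1 + 1) → ℕ → K) idx)) = Fin.cons (π z) (b i) := by
      funext idx
      refine Fin.cases ?_ (fun k => ?_) idx
      · simp
      · simp [hs]
    have e2 : ∀ j, (fun idx => (Fin.cons (α := fun _ => ℕ → K) z (fun k => s (b i k)) :
        Fin ((Φ i).1 + 1) → ℕ → K) idx j) = Fin.cons (z j) (fun k => s (b i k) j) := by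
      intro j
      funext idx
      refine Fin.cases ?_ (fun k => ?_) idx
      · simp
      · simp
    rw [e1] at h1
    simp only [e2] at h1
    exact h1
  set P : ℕ → ℕ → Prop := fun j m => ∃ y : K, ∀ i < m,
    (Φ i).2.Holds Q (Fin.cons y (fun k => s (b i k) j)) with hP
  have hspec : ∀ j, P j (Nat.findGreatest (P j) j) := fun j =>
    Nat.findGreatest_spec (P := P j) (Nat.zero_le j) ⟨0, fun i hi => absurd hi (Nat.not_lt_zero i)⟩
  choose y hy using hspec
  refine ⟨π y, fun i0 => ?_⟩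
  rw [los]
  obtain ⟨y', hy'⟩ := hfin (i0 + 1)
  have h1 : ∀ᶠ j in (hyperfilter ℕ : Filter ℕ), ∀ i ∈ Finset.range (i0 + 1),
      (Φ i).2.Holds Q (Fin.cons (s y' j) (fun k => s (b i k) j)) := by
    rw [eventually_all_finset]
    intro i hi
    rw [← los i (s y'), hs]
    exact hy' i (Finset.mem_range.1 hi)
  have h2 : ∀ᶠ j in (hyperfilter ℕ : Filter ℕ), i0 < j :=
    (eventually_gt_atTop i0).filter_mono Nat.hyperfilter_le_atTop
  filter_upwards [h1, h2] with j g1 g2
  have h3 : i0 + 1 ≤ Nat.findGreatest (P j) j :=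
    Nat.le_findGreatest g2 ⟨s y' j, fun i hi => g1 i (Finset.mem_range.2 hi)⟩
  exact hy j i0 h3

end Pool.Agent.U941.AO
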